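import Mathlib
import Pool.Agent.W5h67.FourE

/-!
# `F_4(C ⊕ D)` is a `k_R`-space for every discrete space `D` (positive answer to Q1)

* `Fn X n` (file `Pool/Agent/W5h67/FourC.lean`) is the set of all elements of the free group on `X`
  whose reduced word has length at most `n`, with the subspace topology of the free topological group
  `F(X)` in the sense of Markov, that is, of `FG.topF X` (file `Pool/Agent/R821/FreeT2.lean`), the
  finest group topology on the free group for which the canonical map of `X` is continuous.
* `IsKR`, `IsK` and `ConvSeq` are defined in `Pool/Agent/W5h67/FourE.lean`.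

The proof: every element `p ≠ 1` of `F_4(C ⊕ D)` has a neighbourhood in `F_4(C ⊕ D)` with compact
closure (it only involves finitely many letters of `D`). Near `1` the space `F_4(C ⊕ D)` consists of
the compact set `F_4(C)` and the compact sets of all `d⁻¹xy⁻¹d`, `d⁻¹x⁻¹yd`, `dxy⁻¹d⁻¹`, `dx⁻¹yd⁻¹`
for `d ∈ D`, and these sets form a fan with the weak topology, which is seen by means of suitable
actions of `F(C ⊕ D)` on discrete sets.
-/

set_option autoImplicit false

universe u v

namespace Pool.Agent.Results.MP_c880a5_gt.LevelFour

open Pool.Agent.W5h67.Four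

/-- Let `C` be a nontrivial convergent sequence together with its limit and let `D` be any discrete
space. Then `F_4(C ⊕ D)` is a `k_R`-space; in fact it is a `k`-space. -/
theorem result (C : Type u) (D : Type v) [TopologicalSpace C] [TopologicalSpace D]
    [DiscreteTopology D] (hC : Nonempty (C ≃ₜ ConvSeq)) :
    IsKR (Fn (C ⊕ D) 4) ∧ IsK (Fn (C ⊕ D) 4) := by
  obtain ⟨e⟩ := hC
  have h1 : CompactSpace ConvSeq := isCompact_iff_compactSpace.1 isCompact_convSeq
  have h2 : CompactSpace C := e.symm.compactSpace
  have h3 : T2Space C := e.symm.t2Space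
  have h0 : (0 : ℝ) ∈ ConvSeq := Or.inl rfl
  have h4 : ∀ c : C, c ≠ e.symm ⟨0, h0⟩ → IsOpen ({c} : Set C) := by
    intro c hc
    have h5 : (e c).1 ≠ 0 := by
      intro h
      refine hc ?_
      rw [Homeomorph.eq_symm_apply]
      exact Subtype.ext h
    have h6 := (isOpen_convSeq (e c) h5).preimage e.continuous
    have h7 : (e ⁻¹' {e c} : Set C) = {c} := by
      ext z
      simp
    rwa [h7] at h6
  have h8 := main C D (e.symm ⟨0, h0⟩) h4
  exact ⟨h8.2, h8.1⟩

end Pool.Agent.Results.MP_c880a5_gt.LevelFour
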